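import Pool.Agent.Helper89.GW.Stmts

/-!
# DP: the three double points
-/

set_option autoImplicit false

open scoped ContDiff Topology
open Set Filter

namespace GW

theorem dp_diff {φ : ℝ × ℝ → ℝ} (h : ContDiff ℝ ∞ φ) (z : ℝ × ℝ) : DifferentiableAt ℝ φ z :=
  (h.differentiable (by simp)) z

theorem dp_plus {φ u : ℝ × ℝ → ℝ} (hφ : ContDiff ℝ ∞ φ) (hu : ContDiff ℝ ∞ u) (k : ℝ)
    (z : ℝ × ℝ) : dX (fun z => φ z + u z - k) z = dX φ z + dX u z ∧
      dT (fun z => φ z + u z - k) z = dT φ z + dT u z := by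
  have h : HasFDerivAt (fun z => φ z + u z - k) (fderiv ℝ φ z + fderiv ℝ u z) z :=
    ((dp_diff hφ z).hasFDerivAt.add (dp_diff hu z).hasFDerivAt).sub_const k
  unfold dX dT
  rw [h.fderiv]
  exact ⟨rfl, rfl⟩

theorem dp_minus {φ u : ℝ × ℝ → ℝ} (hφ : ContDiff ℝ ∞ φ) (hu : ContDiff ℝ ∞ u) (k : ℝ)
    (z : ℝ × ℝ) : dX (fun z => φ z - u z + k) z = dX φ z - dX u z ∧
      dT (fun z => φ z - u z + k) z = dT φ z - dT u z := by
  have h : HasFDerivAt (fun z => φ z - u z + k) (fderiv ℝ φ z - fderiv ℝ u z) z :=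
    ((dp_diff hφ z).hasFDerivAt.sub (dp_diff hu z).hasFDerivAt).add_const k
  unfold dX dT
  rw [h.fderiv]
  exact ⟨rfl, rfl⟩

theorem dp_sub {φ u : ℝ × ℝ → ℝ} (hφ : ContDiff ℝ ∞ φ) (hu : ContDiff ℝ ∞ u)
    (z : ℝ × ℝ) : dX (fun z => φ z - u z) z = dX φ z - dX u z ∧
      dT (fun z => φ z - u z) z = dT φ z - dT u z := by
  have h : HasFDerivAt (fun z => φ z - u z) (fderiv ℝ φ z - fderiv ℝ u z) z :=
    (dp_diff hφ z).hasFDerivAt.sub (dp_diff hu z).hasFDerivAt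
  unfold dX dT
  rw [h.fderiv]
  exact ⟨rfl, rfl⟩

theorem dp_neg {u : ℝ × ℝ → ℝ} (hu : ContDiff ℝ ∞ u)
    (z : ℝ × ℝ) : dX (fun z => -u z) z = -dX u z ∧ dT (fun z => -u z) z = -dT u z := by
  have h : HasFDerivAt (fun z => -u z) (-fderiv ℝ u z) z := (dp_diff hu z).hasFDerivAt.neg
  unfold dX dT
  rw [h.fderiv]
  exact ⟨rfl, rfl⟩

theorem dp_zero (z : ℝ × ℝ) : dX (fun _ => (0 : ℝ)) z = 0 ∧ dT (fun _ => (0 : ℝ)) z = 0 := by
  unfold dX dT
  simp

theorem dp_mR (hD : ST_DAT) (hS : ST_SPD) (z : ℝ × ℝ) : ContDiff ℝ ∞ mR ∧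
    dX mR z = dX (sp mI) z + 2 * kk * dX (sp xI) z ∧
    dT mR z = dT (sp mI) z + 2 * kk * dT (sp xI) z := by
  have h1 := (hS mI hD.1.2.2.2.1).1
  have h2 := (hS xI hD.1.2.2.2.2.2.2).1
  have h3 : ContDiff ℝ ∞ mR := h1.add (contDiff_const.mul h2)
  have h : HasFDerivAt mR (fderiv ℝ (sp mI) z + (2 * kk) • fderiv ℝ (sp xI) z) z :=
    (dp_diff h1 z).hasFDerivAt.add ((dp_diff h2 z).hasFDerivAt.const_mul (2 * kk))
  refine ⟨h3, ?_, ?_⟩
  · unfold dX
    rw [h.fderiv]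
    rfl
  · unfold dT
    rw [h.fderiv]
    rfl

theorem dp_gr (ψ : ℝ × ℝ → ℝ) (q : E) :
    (∃ v, (q, v) ∈ Gr ψ) ↔ q 1 = dX ψ (pr q) ∧ q 3 = dT ψ (pr q) := by
  constructor
  · rintro ⟨v, h1, h2, -⟩
    exact ⟨h1, h2⟩
  · rintro ⟨h1, h2⟩
    exact ⟨ψ (pr q), h1, h2, rfl⟩

/-- the join over a point where `u ≥ ee` -/
theorem dp_jn (hJ : ST_JFUL) {φ u : ℝ × ℝ → ℝ} (hφ : ContDiff ℝ ∞ φ) (hu : ContDiff ℝ ∞ u)
    (q : E) (h : ee ≤ u (pr q)) :
    (∃ v, (q, v) ∈ Jn φ u) ↔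
      (q 1 = dX φ (pr q) + dX u (pr q) ∧ q 3 = dT φ (pr q) + dT u (pr q)) ∨
      (q 1 = dX φ (pr q) - dX u (pr q) ∧ q 3 = dT φ (pr q) - dT u (pr q)) := by
  have h1 : (∃ v, (q, v) ∈ Jn φ u) ↔ (∃ v, (q, v) ∈ Gr (fun z => φ z + u z - kk)) ∨
      (∃ v, (q, v) ∈ Gr (fun z => φ z - u z + kk)) := by
    rw [← exists_or]
    exact exists_congr fun v => hJ φ u (q, v) hφ hu h
  rw [h1, dp_gr, dp_gr, (dp_plus hφ hu kk (pr q)).1, (dp_plus hφ hu kk (pr q)).2,
    (dp_minus hφ hu kk (pr q)).1, (dp_minus hφ hu kk (pr q)).2]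

/-- the join is empty over a point where `u = 0` -/
theorem dp_empty (hH : ST_HHF) {φ u : ℝ × ℝ → ℝ} (q : E) (h : u (pr q) = 0) :
    ¬ ∃ v, (q, v) ∈ Jn φ u := by
  rintro ⟨v, s, hs, -⟩
  have h0 := hH.2.1 0 (by norm_num)
  have : u (pr (q, v).1) / ee = 0 := by
    simp [h]
  rw [this, h0] at hs
  nlinarith [sq_nonneg s]

theorem dp_prj_or (P Q : E → ℝ → Prop) (q : E) :
    (∃ v, (P q v ∨ Q q v)) ↔ (∃ v, P q v) ∨ (∃ v, Q q v) := exists_or

/-- description of the projection of `Lh` in region 2 -/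
theorem dp_reg (hR : ST_REG) (q : E) (h : O2 (pr q)) :
    q ∈ prj Lh ↔ (∃ v, (q, v) ∈ Jn (fun _ => 0) uA') ∨ (∃ v, (q, v) ∈ Jn mR uB) := by
  rw [← exists_or]
  exact exists_congr fun v => hR.2.2.1 (q, v) h

theorem dp_O2 (x t : ℝ) (hx : x < 15 / 4 ∨ 29 / 4 < x) (ht : |t - 12| < 1 / 8) : O2 (x, t) := by
  have ht' := abs_lt.mp ht
  refine ⟨by simp only; linarith, by simp only; linarith, ?_⟩
  rintro ⟨h1, h2, -⟩
  simp only at h1 h2
  rcases hx with h | h <;> linarith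

/-- the open neighbourhood -/
def dp_U (c : ℝ) : Set E := {q | |q 0 - c| < 1 / 8 ∧ |q 2 - 12| < 1 / 8}

theorem dp_U_open (c : ℝ) : IsOpen (dp_U c) := by
  have h0 : Continuous fun q : E => |q 0 - c| := by fun_prop
  have h2 : Continuous fun q : E => |q 2 - 12| := by fun_prop
  exact (isOpen_lt h0 continuous_const).inter (isOpen_lt h2 continuous_const)

theorem dp_near (c : ℤ) (x : ℝ) (h : |x - c| < 1 / 8) : (El.near c).mem x := by
  change |x - c| < 1 / 4
  linarith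

theorem dp_1 (hR : ST_REG) (hQ : ST_QUAD) (hQD : ST_QDAT) (hM : ST_MU) (hJ : ST_JFUL)
    (hH : ST_HHF) (hD : ST_DAT) (hS : ST_SPD) (hSI : ST_SIGN) : DblPt (prj Lh) d1 := by
  obtain ⟨r, hr, hmu⟩ := hM.2.2.2.2.2.2.2
  have hsA := hD.1.2.1
  have hsB := hD.1.2.2.1
  have cA : ContDiff ℝ ∞ uA' := (hS aI' hsA).1
  have cB : ContDiff ℝ ∞ uB := (hS bI hsB).1
  have hquad : ∀ x t : ℝ, |x - 11| ≤ 1 / 8 → |t - 12| ≤ 1 / 8 →
      dX uA' (x, t) = -20 * r * (x - 11) ∧ dT uA' (x, t) = 4 * r * (t - 12) := by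
    intro x t hx ht
    have h := hQ aI' 11 266 10 2 hsA (by norm_num) (by norm_num)
      (fun i j hi hj => (hQD i j hi hj).1) x t (by push_cast; linarith) (by linarith)
    have m1 := hmu (x - 11) hx
    have m2 := hmu (t - 12) ht
    refine ⟨?_, ?_⟩
    · change dX (sp aI') (x, t) = _
      rw [h.1]
      push_cast
      rw [m1]
      ring
    · change dT (sp aI') (x, t) = _
      rw [h.2, m2]
      push_cast
      ring
  refine ⟨fun z => -uA' z, (11, 12), -40 * r, 8 * r, dp_U 11, cA.neg, by nlinarith, by positivity,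
    dp_U_open 11, ?_, ?_, ?_⟩
  · refine ⟨?_, ?_⟩ <;> simp [d1]
  · have h := hquad 11 12 (by norm_num) (by norm_num)
    have hn := dp_neg cA (11, 12)
    rw [hn.1, hn.2, h.1, h.2]
    simp [d1]
  · intro q hq
    have hx : |q 0 - 11| < 1 / 8 := hq.1
    have ht : |q 2 - 12| < 1 / 8 := hq.2
    have hx' := abs_lt.mp hx
    have hO : O2 (pr q) := dp_O2 _ _ (Or.inr (by linarith)) ht
    have hX : (El.near 11).mem (q 0) := dp_near 11 _ (by push_cast; exact hx)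
    have hT : (El.near 12).mem (q 2) := dp_near 12 _ (by push_cast; exact ht)
    have sB := (hSI bI (El.near 11) (El.near 12) (q 0) (q 2) hsB hX hT).2.2.2.2.1 (by decide +kernel)
    have sA := (hSI aI' (El.near 11) (El.near 12) (q 0) (q 2) hsA hX hT).2.2.2.2.2.1
      (fun c _ k _ => hD.2.2.1.2.1 c k) (by decide +kernel)
    have hee : ee ≤ uA' (pr q) := by
      refine le_trans ?_ sA
      unfold ee
      norm_num
    rw [dp_reg hR q hO, dp_jn hJ contDiff_const cA q hee]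
    have hne : ¬ ∃ v, (q, v) ∈ Jn mR uB := dp_empty hH q sB
    have h := hquad (q 0) (q 2) hx.le ht.le
    have hn := dp_neg cA (pr q)
    have hz := dp_zero (pr q)
    have e1 : dX uA' (pr q) = -20 * r * (q 0 - 11) := h.1
    have e2 : dT uA' (pr q) = 4 * r * (q 2 - 12) := h.2
    rw [hn.1, hn.2, hz.1, hz.2, e1, e2]
    constructor
    · rintro ((⟨h1, h2⟩ | ⟨h1, h2⟩) | h3)
      · right
        refine ⟨?_, ?_⟩
        · rw [h1]; ring
        · rw [h2]; ring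
      · left
        refine ⟨?_, ?_⟩
        · rw [h1]; ring
        · rw [h2]; ring
      · exact absurd h3 hne
    · rintro (⟨h1, h2⟩ | ⟨h1, h2⟩)
      · left; right
        refine ⟨?_, ?_⟩
        · rw [h1]; ring
        · rw [h2]; ring
      · left; left
        refine ⟨?_, ?_⟩
        · rw [h1]; ring
        · rw [h2]; ring

theorem dp_2 (hR : ST_REG) (hQ : ST_QUAD) (hQD : ST_QDAT) (hM : ST_MU) (hJ : ST_JFUL)
    (hH : ST_HHF) (hD : ST_DAT) (hS : ST_SPD) (hSI : ST_SIGN) : DblPt (prj Lh) d2 := by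
  obtain ⟨r, hr, hmu⟩ := hM.2.2.2.2.2.2.2
  have hsA := hD.1.2.1
  have hsB := hD.1.2.2.1
  have hsM := hD.1.2.2.2.1
  have hsX := hD.1.2.2.2.2.2.2
  have cB : ContDiff ℝ ∞ uB := (hS bI hsB).1
  have cM : ContDiff ℝ ∞ mR := (dp_mR hD hS (0, 0)).1
  have hquad : ∀ x t : ℝ, |x + 5| ≤ 1 / 8 → |t - 12| ≤ 1 / 8 →
      dX uB (x, t) = -20 * r * (x + 5) ∧ dT uB (x, t) = 4 * r * (t - 12) ∧
      dX mR (x, t) = 0 ∧ dT mR (x, t) = 0 := by
    intro x t hx ht
    have e5 : x - ((-5 : ℤ) : ℝ) = x + 5 := by push_cast; ring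
    have h := hQ bI (-5) 278 10 2 hsB (by norm_num) (by norm_num)
      (fun i j hi hj => (hQD i j hi hj).2.1) x t (by rw [e5]; linarith) (by linarith)
    have hm := hQ mI (-5) 0 0 0 hsM (by norm_num) (by norm_num)
      (fun i j hi hj => by rw [(hQD i j hi hj).2.2.2.1]; ring) x t (by rw [e5]; linarith)
      (by linarith)
    have hx2 := hQ xI (-5) 0 0 0 hsX (by norm_num) (by norm_num)
      (fun i j hi hj => by rw [(hQD i j hi hj).2.2.2.2.1]; ring) x t (by rw [e5]; linarith)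
      (by linarith)
    have m1 := hmu (x + 5) hx
    have m2 := hmu (t - 12) ht
    have hR := dp_mR hD hS (x, t)
    rw [e5] at h hm hx2
    refine ⟨?_, ?_, ?_, ?_⟩
    · change dX (sp bI) (x, t) = _
      rw [h.1]
      push_cast
      rw [m1]
      ring
    · change dT (sp bI) (x, t) = _
      rw [h.2, m2]
      push_cast
      ring
    · rw [hR.2.1, hm.1, hx2.1]
      push_cast
      ring
    · rw [hR.2.2, hm.2, hx2.2]
      push_cast
      ring
  refine ⟨fun z => mR z - uB z, (-5, 12), -40 * r, 8 * r, dp_U (-5), cM.sub cB, by nlinarith,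
    by positivity, dp_U_open (-5), ?_, ?_, ?_⟩
  · refine ⟨?_, ?_⟩ <;> simp [d2]
  · have h := hquad (-5) 12 (by norm_num) (by norm_num)
    have hn := dp_sub cM cB (-5, 12)
    rw [hn.1, hn.2, h.1, h.2.1, h.2.2.1, h.2.2.2]
    simp [d2]
  · intro q hq
    have hx0 : |q 0 - (-5)| < 1 / 8 := hq.1
    have e5 : q 0 - (-5) = q 0 + 5 := by ring
    have hx : |q 0 + 5| < 1 / 8 := by rw [← e5]; exact hx0
    have ht : |q 2 - 12| < 1 / 8 := hq.2
    have hx' := abs_lt.mp hx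
    have hO : O2 (pr q) := dp_O2 _ _ (Or.inl (by linarith)) ht
    have hX : (El.near (-5)).mem (q 0) := dp_near (-5) _ (by push_cast; exact hx0)
    have hT : (El.near 12).mem (q 2) := dp_near 12 _ (by push_cast; exact ht)
    have sA := (hSI aI' (El.near (-5)) (El.near 12) (q 0) (q 2) hsA hX hT).2.2.2.2.1
      (by decide +kernel)
    have sB := (hSI bI (El.near (-5)) (El.near 12) (q 0) (q 2) hsB hX hT).2.2.2.2.2.1
      (fun c _ k _ => hD.2.2.1.2.2.1 c k) (by decide +kernel)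
    have hee : ee ≤ uB (pr q) := by
      refine le_trans ?_ sB
      unfold ee
      norm_num
    rw [dp_reg hR q hO, dp_jn hJ cM cB q hee]
    have hne : ¬ ∃ v, (q, v) ∈ Jn (fun _ => 0) uA' := dp_empty hH q sA
    have h := hquad (q 0) (q 2) hx.le ht.le
    have hn := dp_sub cM cB (pr q)
    have e1 : dX uB (pr q) = -20 * r * (q 0 + 5) := h.1
    have e2 : dT uB (pr q) = 4 * r * (q 2 - 12) := h.2.1
    have e3 : dX mR (pr q) = 0 := h.2.2.1
    have e4 : dT mR (pr q) = 0 := h.2.2.2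
    rw [hn.1, hn.2, e1, e2, e3, e4]
    constructor
    · rintro (h3 | (⟨h1, h2⟩ | ⟨h1, h2⟩))
      · exact absurd h3 hne
      · right
        refine ⟨?_, ?_⟩
        · rw [h1]; ring
        · rw [h2]; ring
      · left
        exact ⟨h1, h2⟩
    · rintro (⟨h1, h2⟩ | ⟨h1, h2⟩)
      · right; right
        exact ⟨h1, h2⟩
      · right; left
        refine ⟨?_, ?_⟩
        · rw [h1]; ring
        · rw [h2]; ring

theorem dp_cont {u : ℝ × ℝ → ℝ} (hu : ContDiff ℝ ∞ u) : Continuous fun q : E => dX u (pr q) := by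
  have h1 : Continuous fun z : ℝ × ℝ => fderiv ℝ u z (1, 0) :=
    (hu.continuous_fderiv (by simp)).clm_apply continuous_const
  have h2 : Continuous fun q : E => pr q := by
    unfold pr
    fun_prop
  exact h1.comp h2

theorem dp_3 (hR : ST_REG) (hQ : ST_QUAD) (hQD : ST_QDAT) (hM : ST_MU) (hJ : ST_JFUL)
    (hD : ST_DAT) (hS : ST_SPD) (hSI : ST_SIGN) (hL : ST_SLIN)
    (hRf : ST_SREF) : DblPt (prj Lh) d3 := by
  obtain ⟨r, hr, hmu⟩ := hM.2.2.2.2.2.2.2
  have hsA := hD.1.2.1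
  have hsB := hD.1.2.2.1
  have hsM := hD.1.2.2.2.1
  have hsX := hD.1.2.2.2.2.2.2
  have cA : ContDiff ℝ ∞ uA' := (hS aI' hsA).1
  have cB : ContDiff ℝ ∞ uB := (hS bI hsB).1
  have cM : ContDiff ℝ ∞ mR := (dp_mR hD hS (0, 0)).1
  have hquad : ∀ x t : ℝ, |x - 8| ≤ 1 / 8 → |t - 12| ≤ 1 / 8 →
      dX uA' (x, t) = dX mR (x, t) - dX uB (x, t) + 24 * r * (x - 8) ∧
      dT uA' (x, t) = dT mR (x, t) - dT uB (x, t) + 4 * r * (t - 12) ∧
      dX mR (x, t) = dX (sp mI) (x, t) := by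
    intro x t hx ht
    have hl := hL mI bI aI' 1 (-1) (x, t) hsM hsB hsA
    have h := hQ (fun c k => mI c k + (-1) * bI c k - 1 * aI' c k) 8 (-26) 12 (-2) hl.1
      (by norm_num) (by norm_num)
      (fun i j hi hj => by
        have := (hQD i j hi hj).2.2.1
        linarith) x t (by push_cast; linarith) (by linarith)
    have hx2 := hQ xI 8 1 0 0 hsX (by norm_num) (by norm_num)
      (fun i j hi hj => by rw [(hQD i j hi hj).2.2.2.2.2]; ring) x t (by push_cast; linarith)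
      (by linarith)
    have m1 := hmu (x - 8) hx
    have m2 := hmu (t - 12) ht
    have hR := dp_mR hD hS (x, t)
    have k1 := h.1
    have k2 := h.2
    rw [hl.2.2.1] at k1
    rw [hl.2.2.2] at k2
    have k3 := hx2.1
    have k4 := hx2.2
    push_cast at k1 k2 k3 k4
    rw [m1] at k1
    rw [m2] at k2
    change dX (sp aI') (x, t) = _ ∧ dT (sp aI') (x, t) = _ ∧ _
    rw [hR.2.1, hR.2.2, k3, k4]
    change _ = _ - dX (sp bI) (x, t) + _ ∧ _ = _ - dT (sp bI) (x, t) + _ ∧ _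
    refine ⟨by linarith, by linarith, by ring⟩
  have hU : IsOpen {q : E | q ∈ dp_U 8 ∧ (q 1 ≠ -dX uA' (pr q) ∧
      q 1 ≠ dX mR (pr q) + dX uB (pr q))} := by
    have c1 : Continuous fun q : E => q 1 := continuous_apply 1
    have o1 : IsOpen {q : E | q 1 ≠ -dX uA' (pr q)} := isOpen_ne_fun c1 (dp_cont cA).neg
    have o2 : IsOpen {q : E | q 1 ≠ dX mR (pr q) + dX uB (pr q)} :=
      isOpen_ne_fun c1 ((dp_cont cM).add (dp_cont cB))
    exact (dp_U_open 8).inter (o1.inter o2)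
  have h8 := hquad 8 12 (by norm_num) (by norm_num)
  have hT0 : dT uA' (8, 12) = 0 := by
    have h := (hRf aI' hsA hD.2.1.2.1 8 12).2.2
    norm_num at h
    change dT uA' (8, 12) = -dT uA' (8, 12) at h
    linarith
  have hX8 : (El.near 8).mem (8 : ℝ) := dp_near 8 _ (by norm_num)
  have hT8 : (El.near 12).mem (12 : ℝ) := dp_near 12 _ (by norm_num)
  have hpos : 0 < dX uA' (8, 12) :=
    (hSI aI' (El.near 8) (El.near 12) 8 12 hsA hX8 hT8).1 (by decide +kernel)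
  have hneg : dX mR (8, 12) + dX uB (8, 12) - dX uA' (8, 12) < 0 := by
    have hl := hL mI bI aI' 1 1 (8, 12) hsM hsB hsA
    have h := (hSI (fun c k => mI c k + 1 * bI c k - 1 * aI' c k) (El.near 8) (El.near 12) 8 12 hl.1
      hX8 hT8).2.1 (by decide +kernel)
    rw [hl.2.2.1] at h
    push_cast at h
    rw [h8.2.2]
    change dX (sp mI) (8, 12) + dX (sp bI) (8, 12) - dX (sp aI') (8, 12) < 0
    linarith
  refine ⟨fun z => mR z - uB z, (8, 12), 24 * r, 4 * r, _, cM.sub cB, by positivity,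
    by positivity, hU, ?_, ?_, ?_⟩
  · refine ⟨⟨?_, ?_⟩, ?_, ?_⟩
    · simp [d3]
    · simp [d3]
    · have e : pr d3 = (8, 12) := by simp [pr, d3]
      rw [e]
      have e2 : d3 1 = dX uA' (8, 12) := by simp [d3]
      rw [e2]
      intro h
      linarith
    · have e : pr d3 = (8, 12) := by simp [pr, d3]
      rw [e]
      have e2 : d3 1 = dX uA' (8, 12) := by simp [d3]
      rw [e2]
      intro h
      linarith
  · have hn := dp_sub cM cB (8, 12)
    have e1 : dX mR (8, 12) - dX uB (8, 12) = dX uA' (8, 12) := by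
      rw [h8.1]; ring
    have e2 : dT mR (8, 12) - dT uB (8, 12) = 0 := by
      have := h8.2.1
      rw [hT0] at this
      linarith
    rw [hn.1, hn.2, e1, e2]
    simp [d3]
  · rintro q ⟨hq, hq1, hq2⟩
    have hx : |q 0 - 8| < 1 / 8 := hq.1
    have ht : |q 2 - 12| < 1 / 8 := hq.2
    have hx' := abs_lt.mp hx
    have hO : O2 (pr q) := dp_O2 _ _ (Or.inr (by linarith)) ht
    have hX : (El.near 8).mem (q 0) := dp_near 8 _ (by push_cast; exact hx)
    have hT : (El.near 12).mem (q 2) := dp_near 12 _ (by push_cast; exact ht)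
    have sA := (hSI aI' (El.near 8) (El.near 12) (q 0) (q 2) hsA hX hT).2.2.2.2.2.1
      (fun c _ k _ => hD.2.2.1.2.1 c k) (by decide +kernel)
    have sB := (hSI bI (El.near 8) (El.near 12) (q 0) (q 2) hsB hX hT).2.2.2.2.2.1
      (fun c _ k _ => hD.2.2.1.2.2.1 c k) (by decide +kernel)
    have heeA : ee ≤ uA' (pr q) := by
      refine le_trans ?_ sA
      unfold ee
      norm_num
    have heeB : ee ≤ uB (pr q) := by
      refine le_trans ?_ sB
      unfold ee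
      norm_num
    rw [dp_reg hR q hO, dp_jn hJ contDiff_const cA q heeA, dp_jn hJ cM cB q heeB]
    have h := hquad (q 0) (q 2) hx.le ht.le
    have hn := dp_sub cM cB (pr q)
    have hz := dp_zero (pr q)
    have e1 : dX uA' (pr q) = dX mR (pr q) - dX uB (pr q) + 24 * r * (q 0 - 8) := h.1
    have e2 : dT uA' (pr q) = dT mR (pr q) - dT uB (pr q) + 4 * r * (q 2 - 12) := h.2.1
    rw [hn.1, hn.2, hz.1, hz.2]
    constructor
    · rintro ((⟨h1, h2⟩ | ⟨h1, h2⟩) | (⟨h1, h2⟩ | ⟨h1, h2⟩))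
      · right
        refine ⟨?_, ?_⟩
        · rw [h1, e1]; ring
        · rw [h2, e2]; ring
      · exact absurd (by rw [h1]; ring) hq1
      · exact absurd h1 hq2
      · left
        exact ⟨h1, h2⟩
    · rintro (⟨h1, h2⟩ | ⟨h1, h2⟩)
      · right; right
        exact ⟨h1, h2⟩
      · left; left
        refine ⟨?_, ?_⟩
        · rw [h1, e1]; ring
        · rw [h2, e2]; ring

theorem st_DP (hR : ST_REG) (hQ : ST_QUAD) (hQD : ST_QDAT) (hM : ST_MU) (hJ : ST_JFUL)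
    (hH : ST_HHF) (hD : ST_DAT) (hS : ST_SPD) (hSI : ST_SIGN) (hL : ST_SLIN)
    (hRf : ST_SREF) : ST_DP :=
  ⟨dp_1 hR hQ hQD hM hJ hH hD hS hSI, dp_2 hR hQ hQD hM hJ hH hD hS hSI,
    dp_3 hR hQ hQD hM hJ hD hS hSI hL hRf⟩

end GW
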